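import Pool.Agent.helper93.TV.Spec2

/-! Row CT: continuity of Phi and of the reconstruction. -/

namespace Pool.Agent.helper93.TV

open BigOperators Finset Matrix

theorem CT_cof {I V : Type} [Fintype I] [DecidableEq I] [Fintype V] [DecidableEq V]
    (D : FD I V) (X : Finset I) (l e e' l' : V) :
    Continuous fun x : D.Q X × Bool → ℝ => D.cof X x l e e' l' := by
  classical
  unfold FD.cof
  by_cases h : D.cp l e e' l' ∧ D.s1 l ∈ X ∧ D.s2 e ∈ X
  · simp only [dif_pos h]
    have h1 : Continuous fun x : D.Q X × Bool → ℝ => x (⟨(l, e, e', l'), h⟩, false) :=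
      continuous_apply _
    have h2 : Continuous fun x : D.Q X × Bool → ℝ => x (⟨(l, e, e', l'), h⟩, true) :=
      continuous_apply _
    have h3 : (fun x : D.Q X × Bool → ℝ =>
        (⟨x (⟨(l, e, e', l'), h⟩, false), x (⟨(l, e, e', l'), h⟩, true)⟩ : ℂ)) =
        fun x => ((x (⟨(l, e, e', l'), h⟩, false) : ℝ) : ℂ) +
          ((x (⟨(l, e, e', l'), h⟩, true) : ℝ) : ℂ) * Complex.I := by
      funext x
      exact Complex.mk_eq_add_mul_I _ _
    rw [h3]
    exact (Complex.continuous_ofReal.comp h1).add
      ((Complex.continuous_ofReal.comp h2).mul continuous_const)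
  · simp only [dif_neg h]
    exact continuous_const

theorem CT_tp {Z V : Type} [TopologicalSpace Z] [Fintype V] [DecidableEq V]
    (c : Z → V → V → V → V → ℂ) (hc : ∀ l e e' l', Continuous fun z => c z l e e' l')
    (p : List V) : ∀ (l : V) (p' : List V) (l' : V), Continuous fun z => tp (c z) l p p' l' := by
  induction p with
  | nil =>
    intro l p' l'
    cases p' with
    | nil => simp only [tp]; exact continuous_const
    | cons e' p' => simp only [tp]; exact continuous_const
  | cons e p ih =>
    intro l p' l'
    cases p' with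
    | nil => simp only [tp]; exact continuous_const
    | cons e' p' =>
      simp only [tp]
      exact continuous_finsetSum _ fun l'' _ => (hc l e e' l'').mul (ih l'' p' l')

theorem CT_star {Z : Type} [TopologicalSpace Z] {f : Z → ℂ} (hf : Continuous f) :
    Continuous fun z => star (f z) := continuous_star.comp hf

theorem CT_iter {Z I V : Type} [TopologicalSpace Z] [Fintype I] [DecidableEq I] [Fintype V]
    [DecidableEq V] (D : FD I V) (X : Finset I)
    (c : Z → V → V → V → V → ℂ) (hc : ∀ l e e' l', Continuous fun z => c z l e e' l')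
    (n n' : ℕ) (T : Z → List V → List V → ℂ) (hT : ∀ p q, Continuous fun z => T z p q)
    (k : ℕ) : ∀ (a : I) (p q : List V), Continuous fun z => D.iter X (c z) n n' (T z) k a p q := by
  induction k with
  | zero =>
    intro a p q
    simp only [FD.iter]
    by_cases h : a = D.o
    · simp only [if_pos h]; exact hT p q
    · simp only [if_neg h]; exact continuous_const
  | succ k ih =>
    intro a p q
    simp only [FD.iter, FD.step]
    refine continuous_finsetSum _ fun l _ => continuous_finsetSum _ fun p' _ =>
      continuous_finsetSum _ fun q' _ => continuous_finsetSum _ fun l' _ => ?_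
    exact ((CT_tp c hc p l p' l').mul (ih (D.s2 l) p' q')).mul
      (CT_star (CT_tp c hc q l q' l'))

theorem CT_Phi {Z I V : Type} [TopologicalSpace Z] [Fintype I] [DecidableEq I] [Fintype V]
    [DecidableEq V] (D : FD I V) (X : Finset I)
    (c : Z → V → V → V → V → ℂ) (hc : ∀ l e e' l', Continuous fun z => c z l e e' l')
    (m n n' : ℕ) (T : Z → List V → List V → ℂ) (hT : ∀ p q, Continuous fun z => T z p q)
    (a : I) (p q : List V) : Continuous fun z => D.Phi X (c z) m n n' (T z) a p q := by
  simp only [FD.Phi]
  exact (CT_iter D X c hc n n' T hT m a p q).div_const _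

theorem CT : CT_stmt := by
  classical
  intro I V _ _ _ _ D X m bp
  refine ⟨fun n n' T a p q => CT_Phi D X (fun x => D.cof X x) (CT_cof D X) m n n'
    (fun _ => T) (fun _ _ => continuous_const) a p q, ?_⟩
  intro α γ β δ
  have hc : ∀ l e e' l', Continuous fun z : (D.Q X × Bool → ℝ) × (V → (lists V m) → ℂ) =>
      D.cof X z.1 l e e' l' := fun l e e' l' => (CT_cof D X l e e' l').comp continuous_fst
  have hJ : ∀ (β : V) (p : List V), Continuous
      fun z : (D.Q X × Bool → ℝ) × (V → (lists V m) → ℂ) => ext m z.2 β p := by
    intro β p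
    unfold ext
    by_cases h : p ∈ lists V m
    · simp only [dif_pos h]
      exact ((continuous_apply (⟨p, h⟩ : lists V m)).comp
        ((continuous_apply β).comp continuous_snd))
    · simp only [dif_neg h]
      exact continuous_const
  have hTb : ∀ (β : V) (p w : List V), Continuous
      fun z : (D.Q X × Bool → ℝ) × (V → (lists V m) → ℂ) =>
        D.Tb m bp (ext m z.2) β p w := by
    intro β p w
    unfold FD.Tb
    by_cases h : p = bp (D.t β) ∧ w.take m = bp (D.s1 β)
    · simp only [if_pos h]; exact hJ β _
    · simp only [if_neg h]; exact continuous_const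
  have hRv : ∀ (β δ : V) (w : List V), Continuous
      fun z : (D.Q X × Bool → ℝ) × (V → (lists V m) → ℂ) =>
        D.Rv X (D.cof X z.1) m bp (ext m z.2) β δ w := by
    intro β δ w
    unfold FD.Rv
    refine continuous_finsetSum _ fun p _ => (hJ δ p).mul ?_
    exact CT_Phi D X (fun z : (D.Q X × Bool → ℝ) × (V → (lists V m) → ℂ) => D.cof X z.1) hc
      m m (2 * m) (fun z => D.Tb m bp (ext m z.2) β) (hTb β) (D.s1 δ) p w
  unfold FD.form
  by_cases h : D.cp α γ β δ
  · simp only [if_pos h]
    refine continuous_finsetSum _ fun w _ => ?_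
    refine Continuous.mul ?_ (CT_star (hRv β δ w))
    unfold Lv
    exact (hJ α _).mul (hJ γ _)
  · simp only [if_neg h]
    exact continuous_const

end Pool.Agent.helper93.TV
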